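import Mathlib
import Pool.Agent.H153Z.PlanarDefs

/-! Stationary Lipschitz maps of the plane for an energy `∫ f(Du)`: definitions. -/

set_option autoImplicit false

namespace Pool.Agent.H153Z.Stat

open MeasureTheory Pool.Agent.H153Z.Planar
open scoped ContDiff

/-- The Euclidean plane. -/
abbrev Pt := EuclideanSpace ℝ (Fin 2)

/-- The Jacobian matrix `Du(x)`, with entries `∂_j u^i (x)`. -/
noncomputable def Jac {ι : Type} [Fintype ι] (u : Pt → ι → ℝ) (x : Pt) : ι → Fin 2 → ℝ :=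
  fun i j => fderiv ℝ u x (EuclideanSpace.single j 1) i

/-- `φ` is smooth with compact support contained in `Ω`. -/
def IsTest {k : ℕ} (Ω : Set Pt) (φ : Pt → Fin k → ℝ) : Prop :=
  ContDiff ℝ ∞ φ ∧ HasCompactSupport φ ∧ tsupport φ ⊆ Ω

/-- `h` is integrable on `Ω` with integral zero. -/
def IntegralZero (Ω : Set Pt) (h : Pt → ℝ) : Prop := IntegrableOn h Ω ∧ ∫ x in Ω, h x = 0

/-- `u` is critical for outer and for inner variations of `∫_Ω f(Du)`. -/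
def Stationary {n : ℕ} (f : (Fin n → Fin 2 → ℝ) → ℝ) (Ω : Set Pt) (u : Pt → Fin n → ℝ) : Prop :=
  (∀ φ : Pt → Fin n → ℝ, IsTest Ω φ →
    IntegralZero Ω fun x => ∑ i, ∑ j, grad f (Jac u x) i j * Jac φ x i j) ∧
  (∀ Φ : Pt → Fin 2 → ℝ, IsTest Ω Φ →
    IntegralZero Ω fun x => f (Jac u x) * ∑ a, Jac Φ x a a
      - ∑ i, ∑ j, grad f (Jac u x) i j * ∑ a, Jac u x i a * Jac Φ x a j)

/-- `X ↦ f X - γ |X|²` is a convex function of the minors of `X`, for some `γ > 0`. -/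
def StronglyPolyconvex {n : ℕ} (f : (Fin n → Fin 2 → ℝ) → ℝ) : Prop :=
  ∃ γ : ℝ, 0 < γ ∧ ∃ g : (MinorIdx n → ℝ) → ℝ, ConvexOn ℝ Set.univ g ∧
    ∀ X, f X - γ * ∑ i, ∑ j, X i j ^ 2 = g (minors X)

/-- The strong quasiconvexity inequality on the unit disc, for some `γ > 0`. -/
def StronglyQuasiconvex {n : ℕ} (f : (Fin n → Fin 2 → ℝ) → ℝ) : Prop :=
  ∃ γ : ℝ, 0 < γ ∧ ∀ (X : Fin n → Fin 2 → ℝ) (φ : Pt → Fin n → ℝ), IsTest (Metric.ball 0 1) φ →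
    ∫ x in Metric.ball (0 : Pt) 1, (f X + γ * ∑ i, ∑ j, Jac φ x i j ^ 2)
      ≤ ∫ x in Metric.ball (0 : Pt) 1, f (X + Jac φ x)

/-- `u` is `C¹` on an open subset of `Ω` of full measure. -/
def PartiallyRegular {n : ℕ} (Ω : Set Pt) (u : Pt → Fin n → ℝ) : Prop :=
  ∃ Ω₀ : Set Pt, IsOpen Ω₀ ∧ Ω₀ ⊆ Ω ∧ volume (Ω \ Ω₀) = 0 ∧ ContDiffOn ℝ 1 u Ω₀

end Pool.Agent.H153Z.Stat
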