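import Pool.Agent.H153Z.Stat.Defs

/-! Statements of the intermediate steps. -/

set_option autoImplicit false

namespace Pool.Agent.H153Z.Stat

open MeasureTheory Filter Topology Pool.Agent.H153Z.Planar

/-- The four slopes of a hip-roof profile. -/
def slopes (l ε : ℝ) (n : Fin 2 → ℝ) : Fin 4 → Fin 2 → ℝ :=
  ![fun j => (1 - l) * n j, fun j => -l * n j, fun j => ε * ![-n 1, n 0] j,
    fun j => -ε * ![-n 1, n 0] j]

/-- Building block: a bounded open set is filled, up to a null set, with small hip roofs. -/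
def S_block : Prop :=
  ∀ (O : Set Pt), IsOpen O → Bornology.IsBounded O → ∀ (l ε δ : ℝ) (n : Fin 2 → ℝ),
    0 < l → l < 1 → 0 < ε → 0 < δ → n ≠ 0 →
    ∃ (σ : Pt → ℝ) (U : Set Pt) (c : Pt → Fin 4),
      U ⊆ O ∧ volume (O \ U) = 0 ∧ (∀ x, x ∉ O → σ x = 0) ∧ (∀ x, |σ x| ≤ δ) ∧
      (∀ x ∈ U, ∃ G : Set Pt, IsOpen G ∧ x ∈ G ∧ G ⊆ U ∧ G ⊆ Metric.ball x δ ∧
        closure G ∩ U ⊆ G ∧
        ∀ y ∈ G, c y = c x ∧ σ y = σ x + ∑ j, slopes l ε n (c x) j * (y j - x j)) ∧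
      volume (U ∩ {x | c x = 0}) ≤ ENNReal.ofReal l * volume O ∧
      volume (U ∩ {x | c x = 1}) ≤ ENNReal.ofReal (1 - l) * volume O ∧
      volume (U ∩ {x | c x = 2 ∨ c x = 3}) ≤ ENNReal.ofReal δ * volume O ∧
      (O.Nonempty → (∃ x ∈ U, c x = 0) ∧ ∃ x ∈ U, c x = 1) ∧
      ∀ (A : Fin 2 → ℝ) (α C : ℝ), (∀ j, |A j| ≤ C) → (∀ k j, |A j + α * slopes l ε n k j| ≤ C) →
        ∀ x y : Pt, |(∑ j, A j * x j + α * σ x) - (∑ j, A j * y j + α * σ y)| ≤ 2 * C * dist x y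

/-- Convex integration along an abstract splitting scheme. -/
def S_ci : Prop :=
  ∀ (ι κ S : Type) [Fintype ι] [Fintype κ] (e : κ → ι) (val : S → ι → Fin 2 → ℝ) (ψ : S → ℝ)
    (c₀ c₁ : S → S) (K : Set (ι → Fin 2 → ℝ)) (C q η : ℝ), IsClosed K → 0 ≤ q → q < 1 → 0 < η →
    (∀ s r j, |val s r j| ≤ C) → (∀ s, 0 < ψ s ∧ ψ s ≤ C) →
    (∀ s, ∃ A ∈ K, ∀ r j, |val s r j - A r j| ≤ C * ψ s) →
    (∀ s, ∃ (l : ℝ) (a : ι → ℝ) (n : Fin 2 → ℝ), 0 < l ∧ l < 1 ∧ n ≠ 0 ∧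
      (∀ r j, val (c₀ s) r j = val s r j + (1 - l) * a r * n j) ∧
      (∀ r j, val (c₁ s) r j = val s r j - l * a r * n j) ∧
      l * ψ (c₀ s) + (1 - l) * ψ (c₁ s) ≤ q * ψ s ∧
      (∀ r j, l * (1 - l) * |a r * n j| ≤ C * ψ s) ∧
      ∀ᶠ ε in 𝓝 (0 : ℝ), ∃ t : S, ψ t ≤ ψ s ∧
        ∀ r j, val t r j = val s r j + ε * a r * ![-n 1, n 0] j) →
    (∀ s, ∃ t₁ t₂, Relation.ReflTransGen (fun a b => b = c₀ a ∨ b = c₁ a) s t₁ ∧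
      Relation.ReflTransGen (fun a b => b = c₀ a ∨ b = c₁ a) s t₂ ∧
      ∃ k j, η ≤ |val t₁ (e k) j - val t₂ (e k) j|) →
    Nonempty S → ∀ Ω : Set Pt, IsOpen Ω → Bornology.IsBounded Ω →
    ∃ W : Pt → ι → ℝ, (∃ L, LipschitzWith L W) ∧ (∀ᵐ x ∂(volume.restrict Ω), Jac W x ∈ K) ∧
      ∀ O : Set Pt, IsOpen O → O.Nonempty → O ⊆ Ω → ¬ ContDiffOn ℝ 1 (fun x k => W x (e k)) O

/-- A Lipschitz solution of the differential inclusion gives a stationary map. -/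
def S_stat : Prop :=
  ∀ (n : ℕ) (f : (Fin n → Fin 2 → ℝ) → ℝ) (Ω : Set Pt) (W : Pt → Fin n ⊕ Fin n ⊕ Fin 2 → ℝ),
    IsOpen Ω → (∃ L, LipschitzWith L W) →
    (∀ᵐ x ∂(volume.restrict Ω), Matrix.of (Jac W x) ∈ K f) →
    Stationary f Ω fun x i => W x (.inl i)

/-- Strong polyconvexity implies strong quasiconvexity. -/
def S_qc : Prop :=
  ∀ (n : ℕ) (f : (Fin n → Fin 2 → ℝ) → ℝ), StronglyPolyconvex f → StronglyQuasiconvex f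

/-- A convex `C²` function with prescribed convex quadratic germs at finitely many points. -/
def S_interp : Prop :=
  ∀ (ι κ μ : Type) [Fintype ι] [Fintype κ] [Nonempty κ] [Fintype μ] (x : κ → ι → ℝ) (c : κ → ℝ)
    (p : κ → (ι → ℝ) →L[ℝ] ℝ) (h : κ → μ → (ι → ℝ) →L[ℝ] ℝ) (w : κ → μ → ℝ),
    (∀ i k, 0 ≤ w i k) → (∀ i j, j ≠ i → c j + p j (x i - x j) < c i) →
    ∃ g : (ι → ℝ) → ℝ, ConvexOn ℝ Set.univ g ∧ ContDiff ℝ 2 g ∧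
      ∀ i, g =ᶠ[𝓝 (x i)] fun y => c i + p i (y - x i) + ∑ k, w i k * (h i k (y - x i)) ^ 2

end Pool.Agent.H153Z.Stat
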